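import Pool.Agent.Helper75.CG.Defs

/-!
# Project CG, module CG-B: double counting, the second order term
-/

set_option autoImplicit false

namespace Pool.Agent.Helper75.CG

open scoped Classical
open Finset
open Pool.Agent.Helper65.CliqueGame

section abstract

variable {V : Type} [Fintype V] {ι : Type}

theorem sum_mass (T : Finset (Finset V)) (c : Finset V → ℝ) (φ : Finset V → ℝ)
    (κ : Finset V) :
    ∑ S ∈ T, c S * mass φ (S ∪ κ) =
      ∑ A ∈ univ.filter (fun A : Finset V => κ ⊆ A), φ A * ∑ S ∈ T.filter (fun S => S ⊆ A), c S := by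
  have h1 : ∀ S ∈ T, c S * mass φ (S ∪ κ) =
      ∑ A ∈ univ.filter (fun A : Finset V => κ ⊆ A), if S ⊆ A then φ A * c S else 0 := by
    intro S _
    rw [mass, Finset.mul_sum, ← Finset.sum_filter, Finset.filter_filter]
    refine Finset.sum_congr ?_ fun A _ => mul_comm _ _
    ext A
    simp only [mem_filter, mem_univ, true_and, Finset.union_subset_iff]
    exact and_comm
  rw [Finset.sum_congr rfl h1, Finset.sum_comm]
  refine Finset.sum_congr rfl fun A _ => ?_
  rw [← Finset.sum_filter, Finset.mul_sum]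

theorem mass_anti {φ : Finset V → ℝ} (h0 : ∀ A, 0 ≤ φ A) {S T : Finset V} (h : S ⊆ T) :
    mass φ T ≤ mass φ S := by
  refine Finset.sum_le_sum_of_subset_of_nonneg ?_ fun A _ _ => h0 A
  intro A hA
  simp only [mem_filter, mem_univ, true_and] at hA ⊢
  exact h.trans hA

private theorem cgb_mass_nonneg {φ : Finset V → ℝ} (h0 : ∀ A, 0 ≤ φ A) (S : Finset V) :
    0 ≤ mass φ S := Finset.sum_nonneg fun A _ => h0 A

private theorem cgb_rat_nonneg {K : ℝ} {SS : Finset (Finset V)} {φ cap : Finset V → ℝ}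
    (hG : Good K SS φ cap) (S : Finset V) : 0 ≤ rat φ cap S :=
  div_nonneg (cgb_mass_nonneg hG.nonneg S) (hG.pos S).le

private theorem cgb_exists {φ : Finset V → ℝ} {S : Finset V} (h : mass φ S ≠ 0) :
    ∃ A, S ⊆ A ∧ φ A ≠ 0 := by
  obtain ⟨A, hA, hne⟩ := Finset.exists_ne_zero_of_sum_ne_zero h
  exact ⟨A, (mem_filter.1 hA).2, hne⟩

theorem load_sum {K : ℝ} {SS : Finset (Finset V)} {φ cap : Finset V → ℝ} (hG : Good K SS φ cap)
    (κ : Finset V) : ∑ S ∈ SS, rat φ cap S * mass φ (S ∪ κ) ≤ K * mass φ κ := by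
  rw [sum_mass, mass, Finset.mul_sum]
  refine Finset.sum_le_sum fun A _ => ?_
  by_cases hA : φ A = 0
  · simp [hA]
  · rw [mul_comm]
    exact mul_le_mul_of_nonneg_right (hG.load A hA) (hG.nonneg A)

theorem mass_le_cap {K : ℝ} {SS : Finset (Finset V)} {φ cap : Finset V → ℝ}
    (hG : Good K SS φ cap) (hK : 0 ≤ K) {S : Finset V} (hS : S ∈ SS) : mass φ S ≤ K * cap S := by
  by_cases hm : mass φ S = 0
  · rw [hm]
    exact mul_nonneg hK (hG.pos S).le
  · obtain ⟨A, hSA, hA⟩ := cgb_exists hm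
    have h1 : rat φ cap S ≤ ∑ S ∈ SS.filter (fun S => S ⊆ A), rat φ cap S :=
      Finset.single_le_sum (f := fun S => rat φ cap S) (fun S _ => cgb_rat_nonneg hG S)
        (mem_filter.2 ⟨hS, hSA⟩)
    have h2 := h1.trans (hG.load A hA)
    rw [rat, div_le_iff₀ (hG.pos S)] at h2
    exact h2

theorem RR_le {K ν : ℝ} {SS : Finset (Finset V)} {φ cap : Finset V → ℝ} (hG : Good K SS φ cap)
    (hν : 0 ≤ ν) {κ : Finset V} (hS : Slope ν SS φ cap κ) :
    RR SS φ cap κ ≤ ν * 2 ^ κ.card * K * mass φ κ := by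
  -- the target weight
  set g : Finset V → ℝ := fun T => rat φ cap T * mass φ T with hg
  have hg0 : ∀ T, 0 ≤ g T := fun T =>
    mul_nonneg (cgb_rat_nonneg hG T) (cgb_mass_nonneg hG.nonneg T)
  set F := (SS.filter (fun S => ¬ κ ⊆ S)).filter (fun S => S ∪ κ ∈ SS) with hF
  have h1 : RR SS φ cap κ ≤ ∑ S ∈ F, ν * g (S ∪ κ) := by
    rw [RR, hF, Finset.sum_filter (p := fun S => S ∪ κ ∈ SS)]
    refine Finset.sum_le_sum fun S hSS => ?_
    rw [mem_filter] at hSS
    by_cases hm : mass φ (S ∪ κ) = 0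
    · rw [hm]
      split_ifs
      · simpa using mul_nonneg hν (hg0 _)
      · simp
    · obtain ⟨A, hSA, hA⟩ := cgb_exists hm
      obtain ⟨hT, hc⟩ := hS A hA S hSS.1 hSA hSS.2
      rw [if_pos hT]
      have hc1 := hG.pos (S ∪ κ)
      have hc2 := hG.pos S
      simp only [hg, rat]
      have hsq : 0 ≤ mass φ (S ∪ κ) ^ 2 := sq_nonneg _
      calc mass φ (S ∪ κ) ^ 2 / cap S ≤ mass φ (S ∪ κ) ^ 2 * (ν / cap (S ∪ κ)) := by
            rw [div_eq_mul_inv]
            refine mul_le_mul_of_nonneg_left ?_ hsq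
            rw [inv_eq_one_div, div_le_div_iff₀ hc2 hc1]
            linarith
        _ = ν * (mass φ (S ∪ κ) / cap (S ∪ κ) * mass φ (S ∪ κ)) := by
            field_simp
  have h2 : ∑ S ∈ F, g (S ∪ κ) ≤ 2 ^ κ.card * ∑ T ∈ SS.filter (fun T => κ ⊆ T), g T := by
    have hinj : Set.InjOn (fun S : Finset V => (S ∪ κ, S ∩ κ)) (F : Set (Finset V)) := by
      intro S _ S' _ h
      simp only [Prod.mk.injEq] at h
      ext x
      by_cases hx : x ∈ κ
      · have := congrArg (fun U : Finset V => x ∈ U) h.2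
        simpa [hx] using this
      · have := congrArg (fun U : Finset V => x ∈ U) h.1
        simpa [hx] using this
    have h3 : ∑ S ∈ F, g (S ∪ κ) =
        ∑ p ∈ F.image (fun S : Finset V => (S ∪ κ, S ∩ κ)), g p.1 := by
      rw [Finset.sum_image hinj]
    have h4 : F.image (fun S : Finset V => (S ∪ κ, S ∩ κ)) ⊆
        (SS.filter (fun T => κ ⊆ T)) ×ˢ κ.powerset := by
      intro p hp
      rw [Finset.mem_image] at hp
      obtain ⟨S, hSF, rfl⟩ := hp
      rw [hF, mem_filter] at hSF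
      rw [Finset.mem_product]
      exact ⟨mem_filter.2 ⟨hSF.2, Finset.subset_union_right⟩,
        Finset.mem_powerset.2 Finset.inter_subset_right⟩
    rw [h3]
    refine (Finset.sum_le_sum_of_subset_of_nonneg h4 fun p _ _ => hg0 p.1).trans ?_
    rw [Finset.sum_product_right]
    simp only [Finset.sum_const, Finset.card_powerset, nsmul_eq_mul]
    push_cast
    exact le_rfl
  have h5 : ∑ T ∈ SS.filter (fun T => κ ⊆ T), g T ≤ K * mass φ κ := by
    refine le_trans ?_ (load_sum hG κ)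
    have h6 : ∑ T ∈ SS.filter (fun T => κ ⊆ T), g T =
        ∑ T ∈ SS.filter (fun T => κ ⊆ T), rat φ cap T * mass φ (T ∪ κ) := by
      refine Finset.sum_congr rfl fun T hT => ?_
      rw [Finset.union_eq_left.2 (mem_filter.1 hT).2]
    rw [h6]
    exact Finset.sum_le_sum_of_subset_of_nonneg (Finset.filter_subset _ _) fun T _ _ =>
      mul_nonneg (cgb_rat_nonneg hG T) (cgb_mass_nonneg hG.nonneg _)
  calc RR SS φ cap κ ≤ ∑ S ∈ F, ν * g (S ∪ κ) := h1
    _ = ν * ∑ S ∈ F, g (S ∪ κ) := by rw [Finset.mul_sum]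
    _ ≤ ν * (2 ^ κ.card * (K * mass φ κ)) := by
        refine mul_le_mul_of_nonneg_left (h2.trans ?_) hν
        exact mul_le_mul_of_nonneg_left h5 (by positivity)
    _ = ν * 2 ^ κ.card * K * mass φ κ := by ring

theorem RR_nonneg {SS : Finset (Finset V)} {φ cap : Finset V → ℝ} (hcap : ∀ S, 0 < cap S)
    (κ : Finset V) : 0 ≤ RR SS φ cap κ :=
  Finset.sum_nonneg fun S _ => div_nonneg (sq_nonneg _) (hcap S).le

end abstract

end Pool.Agent.Helper75.CG

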